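import Pool.Agent.V5helper98.CN.Fin

/-!
# Averages of class numbers of real quadratic fields
-/

set_option autoImplicit false

namespace Pool.Agent.V5helper98.CN

open Finset Filter NumberField Pool.Agent.H38R2.CG Pool.Agent.Q276.PL
open scoped Classical

/-- squarefree `d ≤ X` with a large class number -/
noncomputable def bad (δ : ℝ) (X : ℕ) : Finset ℕ :=
  (Icc 2 X).filter (fun d : ℕ => Squarefree d ∧ √(d : ℝ) / Real.log X ^ (3 / 2 - δ) < (hh d : ℝ))

lemma exp_poly (a : ℝ) (ha : 0 < a) (m : ℕ) : ∃ C : ℝ, 0 < C ∧ ∀ L : ℝ, 1 ≤ L →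
    L ^ m * Real.exp (-(L ^ a)) ≤ C := by
  set n : ℕ := ⌈(m : ℝ) / a⌉₊ with hn
  have hn1 : (m : ℝ) ≤ a * n := by
    have h := Nat.le_ceil ((m : ℝ) / a)
    rw [← hn, div_le_iff₀ ha] at h
    linarith
  refine ⟨(n.factorial : ℝ), by positivity, fun L hL => ?_⟩
  have hL0 : 0 < L := by linarith
  have h1 := Real.pow_div_factorial_le_exp (x := L ^ a) (Real.rpow_nonneg hL0.le _) n
  rw [div_le_iff₀ (by positivity)] at h1
  have h2 : L ^ m ≤ (L ^ a) ^ n := by
    rw [← Real.rpow_natCast, ← Real.rpow_natCast, ← Real.rpow_mul hL0.le]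
    exact Real.rpow_le_rpow_of_exponent_le hL hn1
  calc L ^ m * Real.exp (-(L ^ a)) ≤ (Real.exp (L ^ a) * n.factorial) * Real.exp (-(L ^ a)) :=
        mul_le_mul_of_nonneg_right (h2.trans h1) (Real.exp_pos _).le
    _ = n.factorial := by
        rw [mul_right_comm, ← Real.exp_add, add_neg_cancel, Real.exp_zero, one_mul]

lemma log_ge_one {X : ℕ} (hX : 3 ≤ X) : 1 ≤ Real.log X := by
  have h1 : (3 : ℝ) ≤ X := by exact_mod_cast hX
  rw [Real.le_log_iff_exp_le (by linarith)]
  linarith [Real.exp_one_lt_d9]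

theorem count_bad (δ : ℝ) (hδ : 0 < δ) (hδ2 : δ < 1 / 2) : ∃ M : ℝ, 0 < M ∧
    ∀ X : ℕ, 3 ≤ X → ((bad δ X).card : ℝ) ≤ M * X * Real.exp (-(Real.log X ^ (δ / 16))) := by
  obtain ⟨M, X0, hM, h⟩ := main_large δ hδ hδ2
  refine ⟨M + Real.exp (Real.log (X0 : ℝ) ^ (δ / 16)), by positivity, fun X hX => ?_⟩
  have he := Real.exp_pos (Real.log (X0 : ℝ) ^ (δ / 16))
  have hE := Real.exp_pos (-(Real.log (X : ℝ) ^ (δ / 16)))
  have hL := log_ge_one hX
  rcases le_or_gt X0 X with h1 | h1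
  · refine (h X h1).trans ?_
    apply mul_le_mul_of_nonneg_right _ hE.le
    apply mul_le_mul_of_nonneg_right _ (Nat.cast_nonneg X)
    linarith
  · have h2 : ((bad δ X).card : ℝ) ≤ X := by
      have h3 : (bad δ X).card ≤ (Icc 2 X).card := card_filter_le _ _
      have h4 : (Icc 2 X).card ≤ X := by
        rw [Nat.card_Icc]
        omega
      exact_mod_cast h3.trans h4
    have h5 : Real.log (X : ℝ) ^ (δ / 16) ≤ Real.log (X0 : ℝ) ^ (δ / 16) := by
      apply Real.rpow_le_rpow (by linarith) _ (by positivity)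
      apply Real.log_le_log (by positivity)
      exact_mod_cast h1.le
    have h6 : 1 ≤ Real.exp (Real.log (X0 : ℝ) ^ (δ / 16)) *
        Real.exp (-(Real.log (X : ℝ) ^ (δ / 16))) := by
      rw [← Real.exp_add]
      exact Real.one_le_exp (by linarith)
    calc ((bad δ X).card : ℝ) ≤ X * 1 := by rw [mul_one]; exact h2
      _ ≤ X * (Real.exp (Real.log (X0 : ℝ) ^ (δ / 16)) *
          Real.exp (-(Real.log (X : ℝ) ^ (δ / 16)))) :=
          mul_le_mul_of_nonneg_left h6 (Nat.cast_nonneg X)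
      _ ≤ M * X * Real.exp (-(Real.log (X : ℝ) ^ (δ / 16))) +
          X * (Real.exp (Real.log (X0 : ℝ) ^ (δ / 16)) *
          Real.exp (-(Real.log (X : ℝ) ^ (δ / 16)))) := by
          have : 0 ≤ M * X * Real.exp (-(Real.log (X : ℝ) ^ (δ / 16))) := by positivity
          linarith
      _ = _ := by ring

/-- the contribution of the bad `d` is negligible -/
theorem sum_bad (δ : ℝ) (hδ : 0 < δ) (hδ2 : δ < 1 / 2) : ∃ M : ℝ, 0 < M ∧
    ∀ X : ℕ, 3 ≤ X → ∑ d ∈ bad δ X, (hh d : ℝ) ≤ M * (X * √(X : ℝ)) / Real.log X ^ 3 := by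
  obtain ⟨M, hM, h1⟩ := count_bad δ hδ hδ2
  obtain ⟨C, hC, h2⟩ := hh_trivial
  obtain ⟨E, hE, h3⟩ := exp_poly (δ / 16) (by positivity) 4
  refine ⟨M * (C * 2) * E, by positivity, fun X hX => ?_⟩
  have hL := log_ge_one hX
  set L := Real.log (X : ℝ) with hLd
  have hL0 : 0 < L := by linarith
  have hX0 : (0 : ℝ) < X := by exact_mod_cast (by omega : 0 < X)
  have h4 : ∀ d ∈ bad δ X, (hh d : ℝ) ≤ C * √(X : ℝ) * (2 * L) := by
    intro d hd
    rw [bad, mem_filter, mem_Icc] at hd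
    obtain ⟨⟨hd2, hdX⟩, hs, -⟩ := hd
    refine (h2 d (by omega) hs).trans ?_
    have h5 : √(d : ℝ) ≤ √(X : ℝ) := Real.sqrt_le_sqrt (by exact_mod_cast hdX)
    have h6 : Real.log d ≤ L := by
      apply Real.log_le_log
      · exact_mod_cast (by omega : 0 < d)
      · exact_mod_cast hdX
    have h7 : 0 ≤ Real.log d := Real.log_nonneg (by exact_mod_cast (by omega : 1 ≤ d))
    have h8 : 1 + Real.log d ≤ 2 * L := by linarith
    gcongr
  calc ∑ d ∈ bad δ X, (hh d : ℝ) ≤ ∑ _d ∈ bad δ X, C * √(X : ℝ) * (2 * L) := sum_le_sum h4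
    _ = ((bad δ X).card : ℝ) * (C * √(X : ℝ) * (2 * L)) := by
        rw [sum_const, nsmul_eq_mul]
    _ ≤ (M * X * Real.exp (-(L ^ (δ / 16)))) * (C * √(X : ℝ) * (2 * L)) :=
        mul_le_mul_of_nonneg_right (h1 X hX) (by positivity)
    _ = M * (C * 2) * (X * √(X : ℝ)) * (L ^ 4 * Real.exp (-(L ^ (δ / 16)))) / L ^ 3 := by
        field_simp
    _ ≤ M * (C * 2) * (X * √(X : ℝ)) * E / L ^ 3 := by
        apply div_le_div_of_nonneg_right _ (by positivity)
        exact mul_le_mul_of_nonneg_left (h3 L hL) (by positivity)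
    _ = _ := by ring

lemma pow_le_cube {L s : ℝ} (hL : 1 ≤ L) (hs : s ≤ 3) {A : ℝ} (hA : 0 ≤ A) :
    A / L ^ 3 ≤ A / L ^ s := by
  have hL0 : 0 < L := by linarith
  apply div_le_div_of_nonneg_left hA (Real.rpow_pos_of_pos hL0 _)
  have : L ^ (3 : ℕ) = L ^ (3 : ℝ) := by norm_cast
  rw [this]
  exact Real.rpow_le_rpow_of_exponent_le hL hs

/-- sums over subsets of the squarefree numbers up to `X` -/
theorem sum_sub (δ : ℝ) (hδ : 0 < δ) (hδ2 : δ < 1 / 2) : ∃ M : ℝ, 0 < M ∧
    ∀ X : ℕ, 3 ≤ X → ∀ S : Finset ℕ, (∀ d ∈ S, 2 ≤ d ∧ d ≤ X ∧ Squarefree d) →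
      ∑ d ∈ S, (hh d : ℝ) ≤ (S.card : ℝ) * √(X : ℝ) / Real.log X ^ (3 / 2 - δ) +
        M * (X * √(X : ℝ)) / Real.log X ^ 3 := by
  obtain ⟨M, hM, h⟩ := sum_bad δ hδ hδ2
  refine ⟨M, hM, fun X hX S hS => ?_⟩
  have hL := log_ge_one hX
  have hL0 : 0 < Real.log (X : ℝ) := by linarith
  rw [← sum_filter_add_sum_filter_not S (fun d => d ∈ bad δ X), add_comm]
  apply add_le_add
  · calc ∑ d ∈ S.filter (fun d => ¬ d ∈ bad δ X), (hh d : ℝ) ≤
        ∑ _d ∈ S.filter (fun d => ¬ d ∈ bad δ X), √(X : ℝ) / Real.log X ^ (3 / 2 - δ) := by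
          refine sum_le_sum fun d hd => ?_
          rw [mem_filter] at hd
          obtain ⟨h2, h3, h4⟩ := hS d hd.1
          have h5 : (hh d : ℝ) ≤ √(d : ℝ) / Real.log X ^ (3 / 2 - δ) := by
            by_contra hcon
            push Not at hcon
            apply hd.2
            rw [bad, mem_filter, mem_Icc]
            exact ⟨⟨h2, h3⟩, h4, hcon⟩
          refine h5.trans ?_
          apply div_le_div_of_nonneg_right _ (Real.rpow_nonneg hL0.le _)
          exact Real.sqrt_le_sqrt (by exact_mod_cast h3)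
      _ = ((S.filter (fun d => ¬ d ∈ bad δ X)).card : ℝ) *
          (√(X : ℝ) / Real.log X ^ (3 / 2 - δ)) := by
          rw [sum_const, nsmul_eq_mul]
      _ ≤ (S.card : ℝ) * (√(X : ℝ) / Real.log X ^ (3 / 2 - δ)) := by
          apply mul_le_mul_of_nonneg_right _ (by positivity)
          exact_mod_cast card_filter_le _ _
      _ = _ := by ring
  · refine le_trans ?_ (h X hX)
    apply sum_le_sum_of_subset_of_nonneg
    · intro d hd
      exact (mem_filter.1 hd).2
    · intro d _ _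
      exact Nat.cast_nonneg _

lemma primes_le : ∃ C : ℝ, 0 < C ∧ ∀ X : ℕ, 3 ≤ X →
    (((Icc 2 X).filter Nat.Prime).card : ℝ) ≤ C * X / Real.log X := by
  have h1 := (Chebyshev.eventually_primeCounting_le (ε := 1) one_pos)
  have h2 := (tendsto_natCast_atTop_atTop (R := ℝ)).eventually h1
  obtain ⟨X0, hX0⟩ := eventually_atTop.1 h2
  have h4 : 0 < Real.log 4 := Real.log_pos (by norm_num)
  have hl0 : 0 ≤ Real.log (X0 : ℝ) := Real.log_natCast_nonneg X0
  refine ⟨Real.log 4 + 1 + Real.log X0, by positivity, fun X hX => ?_⟩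
  have hL := log_ge_one hX
  have hXp : (0 : ℝ) < X := by exact_mod_cast (by omega : 0 < X)
  rcases le_or_gt X0 X with h | h
  · have h3 := hX0 X h
    simp only [Nat.floor_natCast] at h3
    have h5 : ((Icc 2 X).filter Nat.Prime).card ≤ Nat.primeCounting X := by
      rw [Nat.primeCounting, Nat.primeCounting', Nat.count_eq_card_filter_range]
      apply card_le_card
      intro p hp
      rw [mem_filter, mem_Icc] at hp
      rw [mem_filter, mem_range]
      exact ⟨by omega, hp.2⟩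
    have h6 : (((Icc 2 X).filter Nat.Prime).card : ℝ) ≤ (Nat.primeCounting X : ℝ) := by
      exact_mod_cast h5
    refine h6.trans (h3.trans ?_)
    apply div_le_div_of_nonneg_right _ (by linarith)
    apply mul_le_mul_of_nonneg_right _ hXp.le
    linarith
  · have h5 : (((Icc 2 X).filter Nat.Prime).card : ℝ) ≤ X := by
      have h6 : ((Icc 2 X).filter Nat.Prime).card ≤ (Icc 2 X).card := card_filter_le _ _
      have h7 : (Icc 2 X).card ≤ X := by
        rw [Nat.card_Icc]
        omega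
      exact_mod_cast h6.trans h7
    refine h5.trans ?_
    rw [le_div_iff₀ (by linarith)]
    have h6 : Real.log (X : ℝ) ≤ Real.log X0 := Real.log_le_log hXp (by exact_mod_cast h.le)
    nlinarith

lemma primes_ge : ∀ᶠ X : ℕ in atTop,
    (X : ℝ) / (4 * Real.log X) ≤ (((Icc 2 X).filter Nat.Prime).card : ℝ) := by
  have t1 : Tendsto (fun x : ℝ => Real.log x / x) atTop (nhds 0) := by
    have := (Real.isLittleO_log_id_atTop).tendsto_div_nhds_zero
    simpa using this
  have t2 := (t1.comp (tendsto_natCast_atTop_atTop (R := ℝ))).eventually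
    (eventually_le_nhds (show (0 : ℝ) < 1 / 20 by norm_num))
  filter_upwards [t2, eventually_ge_atTop 3] with X h1 h2
  have hL := log_ge_one h2
  have hXp : (0 : ℝ) < X := by exact_mod_cast (by omega : 0 < X)
  have hX3 : (3 : ℝ) ≤ X := by exact_mod_cast h2
  simp only [Function.comp] at h1
  rw [div_le_iff₀ hXp] at h1
  have h3 := Chebyshev.pi_ge X
  have h5 : Nat.primeCounting X ≤ ((Icc 2 X).filter Nat.Prime).card := by
    rw [Nat.primeCounting, Nat.primeCounting', Nat.count_eq_card_filter_range]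
    apply card_le_card
    intro p hp
    rw [mem_filter, mem_range] at hp
    rw [mem_filter, mem_Icc]
    exact ⟨⟨hp.2.two_le, by omega⟩, hp.2⟩
  have h6 : (Nat.primeCounting X : ℝ) ≤ (((Icc 2 X).filter Nat.Prime).card : ℝ) := by
    exact_mod_cast h5
  refine le_trans ?_ (h3.trans h6)
  have h7 : Real.log ((X : ℝ) + 1) ≤ 1 + Real.log X := by
    have h8 : Real.log ((X : ℝ) + 1) ≤ Real.log (2 * X) :=
      Real.log_le_log (by linarith) (by linarith)
    rw [Real.log_mul (by norm_num) hXp.ne'] at h8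
    have := Real.log_two_lt_d9
    linarith
  have h8 := Real.log_two_gt_d9
  rw [div_le_div_iff₀ (by positivity) (by linarith)]
  have h9 : (X : ℝ) * (1 / 2) ≤ X * Real.log 2 := mul_le_mul_of_nonneg_left (by linarith) hXp.le
  have h10 : (X : ℝ) / 4 ≤ X * Real.log 2 - Real.log (X + 1) := by linarith
  nlinarith

end Pool.Agent.V5helper98.CN
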