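import Pool.Agent.W627.LT.Base
import Pool.Agent.Q276.PL.Stm2

/-!
# The class number of a real quadratic field without small units
-/

set_option autoImplicit false

namespace Pool.Agent.V5helper98.CN

open Finset Filter NumberField Pool.Agent.H38R2.CG
open Pool.Agent.H38R2.CG.N5ah Pool.Agent.H38R2.CG.N3h
open scoped Classical

/-- a totally positive unit with positive argument is large -/
lemma unit_large {K : Type} [Field K] [NumberField K] {D : ℕ} (e : Emb K D)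
    {B : ℝ} (hB : 0 < B) (hno : ∀ t u : ℕ, 0 < t → 0 < u →
      (t : ℤ) ^ 2 - (D : ℤ) * (u : ℤ) ^ 2 = 4 → B < ((t : ℝ) + u * √(D : ℝ)) / 2)
    {A : nonZeroDivisors (Ideal (𝓞 K))} (hA : A = 1) {x : K}
    (hx : x ∈ XAB e (A : Ideal (𝓞 K)) (A : Ideal (𝓞 K)))
    (hpos : 0 < Real.log (e.σ x / e.τ x)) :
    2 * Real.log B < Real.log (e.σ x / e.τ x) := by
  have hA0 : (A : Ideal (𝓞 K)) ≠ ⊥ := nonZeroDivisors.coe_ne_zero A
  have h1 := mem_inv_of_XAB e hA0 hx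
  have hcoe : ((A : Ideal (𝓞 K)) : FractionalIdeal (nonZeroDivisors (𝓞 K)) K) = 1 := by
    rw [hA]
    simp
  rw [hcoe, inv_one, FractionalIdeal.mem_one_iff] at h1
  obtain ⟨x0, rfl⟩ := h1
  have hn := norm_XAB e hx
  have hAn : (Ideal.absNorm (A : Ideal (𝓞 K)) : ℝ) = 1 := by
    rw [hA]
    simp
  rw [hAn, mul_one] at hn
  obtain ⟨u, v, -, hσ, hτ⟩ := e.int1 x0
  have hσp : 0 < e.σ (algebraMap (𝓞 K) K x0) := hx.1
  have hτp : 0 < e.τ (algebraMap (𝓞 K) K x0) := hx.2.1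
  set s := e.σ (algebraMap (𝓞 K) K x0) with hs
  set t := e.τ (algebraMap (𝓞 K) K x0) with ht
  have hsD : √(D : ℝ) ^ 2 = D := Real.sq_sqrt (Nat.cast_nonneg D)
  have h4 : (u : ℝ) ^ 2 - D * (v : ℝ) ^ 2 = 4 := by
    have : s * t = ((u : ℝ) ^ 2 - √(D : ℝ) ^ 2 * (v : ℝ) ^ 2) / 4 := by
      rw [hσ, hτ]; ring
    rw [hsD, ← hn] at this
    linarith
  have h4' : u ^ 2 - (D : ℤ) * v ^ 2 = 4 := by exact_mod_cast h4
  have hst : t < s := by
    by_contra hcon
    push Not at hcon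
    have : s / t ≤ 1 := by rw [div_le_one hτp]; exact hcon
    have := Real.log_nonpos (div_pos hσp hτp).le this
    linarith
  have hv : 0 < v := by
    by_contra hcon
    push Not at hcon
    have h5 : (v : ℝ) ≤ 0 := by exact_mod_cast hcon
    have h6 : (v : ℝ) * √(D : ℝ) ≤ 0 := mul_nonpos_of_nonpos_of_nonneg h5 (Real.sqrt_nonneg _)
    linarith
  have hu : 0 < u := by
    have h5 : 0 < (u : ℝ) := by linarith
    exact_mod_cast h5
  have h7 := hno u.toNat v.toNat (by omega) (by omega) (by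
    rw [Int.toNat_of_nonneg hu.le, Int.toNat_of_nonneg hv.le]
    exact h4')
  have h8 : ((u.toNat : ℕ) : ℝ) = (u : ℝ) := by
    exact_mod_cast congrArg (fun z : ℤ => (z : ℝ)) (Int.toNat_of_nonneg hu.le)
  have h9 : ((v.toNat : ℕ) : ℝ) = (v : ℝ) := by
    exact_mod_cast congrArg (fun z : ℤ => (z : ℝ)) (Int.toNat_of_nonneg hv.le)
  rw [h8, h9, ← hσ] at h7
  have h10 : s / t = s ^ 2 := by
    have : t = 1 / s := by
      rw [eq_div_iff hσp.ne']
      linarith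
    rw [this]
    field_simp
  rw [h10, Real.log_pow]
  have := Real.log_lt_log hB h7
  push_cast
  linarith

theorem kap_ge (K : Type) [Field K] [NumberField K] (D : ℕ) (hD : IsFund D)
    (h2 : Module.finrank ℚ K = 2) (hd : discr K = (D : ℤ)) {B : ℝ} (hB : 1 < B)
    (hno : ∀ t u : ℕ, 0 < t → 0 < u →
      (t : ℤ) ^ 2 - (D : ℤ) * (u : ℤ) ^ 2 = 4 → B < ((t : ℝ) + u * √(D : ℝ)) / 2) :
    Real.log B / √(D : ℝ) ≤ kap K := by
  obtain ⟨e⟩ := T_N0 K D hD h2 hd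
  set A : nonZeroDivisors (Ideal (𝓞 K)) := 1 with hA
  have hA0 : (A : Ideal (𝓞 K)) ≠ ⊥ := nonZeroDivisors.coe_ne_zero A
  have hlB : 0 < Real.log B := Real.log_pos hB
  obtain ⟨hfin, hlim⟩ := W627.LT.p4 K D hD h2 hd e (A : Ideal (𝓞 K)) hA0 0 (2 * Real.log B)
    (by linarith)
  have hlim' : (2 * Real.log B - 0) / (2 * √(D : ℝ)) = Real.log B / √(D : ℝ) := by
    rw [sub_zero, mul_div_mul_left _ _ (by norm_num)]
  rw [hlim'] at hlim
  have hcls := cls K (1 : ClassGroup (𝓞 K))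
  refine le_of_tendsto_of_tendsto' hlim hcls fun N => ?_
  apply div_le_div_of_nonneg_right _ (Nat.cast_nonneg N)
  rw [Nat.cast_le]
  have hTfin : {I : nonZeroDivisors (Ideal (𝓞 K)) |
      Ideal.absNorm (I : Ideal (𝓞 K)) ≤ N ∧ ClassGroup.mk0 I = 1}.Finite :=
    (Ideal.finite_setOfPred_absNorm_le₀ (S := 𝓞 K) N).subset fun I hI => hI.1
  have hex : ∀ x ∈ latSet e (A : Ideal (𝓞 K)) 0 (2 * Real.log B) N,
      ∃ J : nonZeroDivisors (Ideal (𝓞 K)), x ∈ XAB e (A : Ideal (𝓞 K)) (J : Ideal (𝓞 K)) := by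
    rintro x ⟨k1, k2, k3, k4, k5, k6⟩
    obtain ⟨J, hJ, hxJ⟩ := exists_XAB e hA0 k1 k2 k5
    exact ⟨⟨J, mem_nonZeroDivisors_of_ne_zero hJ⟩, hxJ⟩
  let f : K → nonZeroDivisors (Ideal (𝓞 K)) := fun x =>
    if h : ∃ J : nonZeroDivisors (Ideal (𝓞 K)), x ∈ XAB e (A : Ideal (𝓞 K)) (J : Ideal (𝓞 K))
    then h.choose else 1
  have hf : ∀ x ∈ latSet e (A : Ideal (𝓞 K)) 0 (2 * Real.log B) N,
      x ∈ XAB e (A : Ideal (𝓞 K)) (f x : Ideal (𝓞 K)) := by
    intro x hx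
    have h := hex x hx
    have : f x = h.choose := dif_pos h
    rw [this]
    exact h.choose_spec
  change (latSet e (A : Ideal (𝓞 K)) 0 (2 * Real.log B) N).ncard ≤
    {I : nonZeroDivisors (Ideal (𝓞 K)) |
      Ideal.absNorm (I : Ideal (𝓞 K)) ≤ N ∧ ClassGroup.mk0 I = 1}.ncard
  have hone : ∀ z ∈ XAB e (A : Ideal (𝓞 K)) (A : Ideal (𝓞 K)),
      Real.log (e.σ z / e.τ z) = 0 → z = 1 := by
    intro z hz hlz
    have hn := norm_XAB e hz
    have hAn : (Ideal.absNorm (A : Ideal (𝓞 K)) : ℝ) = 1 := by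
      rw [hA]
      simp
    rw [hAn, mul_one] at hn
    have hσp := hz.1
    have hτp := hz.2.1
    have h5 : e.σ z / e.τ z = 1 := by
      have h6 := Real.exp_log (div_pos hσp hτp)
      rw [hlz, Real.exp_zero] at h6
      exact h6.symm
    rw [div_eq_one_iff_eq hτp.ne'] at h5
    rw [← h5] at hn
    have h7 : e.σ z = 1 := by nlinarith
    have h8 : e.σ z = e.σ 1 := by rw [h7, map_one]
    exact e.σ.injective h8
  refine Set.ncard_le_ncard_of_injOn f ?_ ?_ hTfin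
  · intro x hx
    have hxJ := hf x hx
    refine ⟨?_, ?_⟩
    · have h7 := norm_XAB e hxJ
      have h8 : (Ideal.absNorm (f x : Ideal (𝓞 K)) : ℝ) ≤ (N : ℝ) := by
        rw [h7]; exact hx.2.2.2.2.2
      exact_mod_cast h8
    · rw [class_XAB e hxJ, hA, map_one]
  · intro x hx y hy hxy
    have hx' := hf x hx
    have hy' := hf y hy
    rw [← hxy] at hy'
    have hz := XAB_div e hx' hy'
    have hz' := XAB_div e hy' hx'
    have l1 := log_div e hx'.1 hx'.2.1 hy'.1 hy'.2.1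
    have l2 := log_div e hy'.1 hy'.2.1 hx'.1 hx'.2.1
    have a1 := hx.2.2.1
    have a2 := hx.2.2.2.1
    have b1 := hy.2.2.1
    have b2 := hy.2.2.2.1
    have hy0 : y ≠ 0 := ne_zero_of_pos e hy'.1
    rcases lt_trichotomy (Real.log (e.σ x / e.τ x)) (Real.log (e.σ y / e.τ y)) with h | h | h
    · exfalso
      have h3 := unit_large e (by linarith : 0 < B) hno hA hz' (by rw [l2]; linarith)
      rw [l2] at h3
      linarith
    · have h3 : x / y = 1 := hone _ hz (by rw [l1]; linarith)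
      rwa [div_eq_one_iff_eq hy0] at h3
    · exfalso
      have h3 := unit_large e (by linarith : 0 < B) hno hA hz (by rw [l1]; linarith)
      rw [l1] at h3
      linarith

/-- a form of the class number formula -/
theorem cnf (K : Type) [Field K] [NumberField K] (D : ℕ) (hD : IsFund D)
    (h2 : Module.finrank ℚ K = 2) (hd : discr K = (D : ℤ)) :
    (Nat.card (ClassGroup (𝓞 K)) : ℝ) * kap K = Lone D := by
  have h1 := lim_H K (⊤ : Subgroup (ClassGroup (𝓞 K)))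
  rw [Subgroup.card_top] at h1
  have h3 := (W627.LT.p3 K D hD h2 hd).2.1
  refine tendsto_nhds_unique h1 (h3.congr fun N => ?_)
  have : ∀ I : nonZeroDivisors (Ideal (𝓞 K)), (Ideal.absNorm (I : Ideal (𝓞 K)) ≤ N) ↔
      (Ideal.absNorm (I : Ideal (𝓞 K)) ≤ N ∧ ClassGroup.mk0 I ∈ (⊤ : Subgroup _)) := by
    intro I
    simp
  rw [Nat.card_congr (Equiv.subtypeEquivRight this)]

theorem cls_bound (K : Type) [Field K] [NumberField K] (D : ℕ) (hD : IsFund D)
    (h2 : Module.finrank ℚ K = 2) (hd : discr K = (D : ℤ)) {B : ℝ} (hB : 1 < B)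
    (hno : ∀ t u : ℕ, 0 < t → 0 < u →
      (t : ℤ) ^ 2 - (D : ℤ) * (u : ℤ) ^ 2 = 4 → B < ((t : ℝ) + u * √(D : ℝ)) / 2) :
    (Nat.card (ClassGroup (𝓞 K)) : ℝ) * Real.log B ≤ √(D : ℝ) * Lone D := by
  have h3 := kap_ge K D hD h2 hd hB hno
  have hDp : 0 < √(D : ℝ) := Real.sqrt_pos.2 (by have := hD.1; exact_mod_cast (by omega))
  rw [div_le_iff₀ hDp] at h3
  rw [← cnf K D hD h2 hd]
  calc (Nat.card (ClassGroup (𝓞 K)) : ℝ) * Real.log B ≤
      (Nat.card (ClassGroup (𝓞 K)) : ℝ) * (kap K * √(D : ℝ)) :=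
        mul_le_mul_of_nonneg_left h3 (Nat.cast_nonneg _)
    _ = _ := by ring

end Pool.Agent.V5helper98.CN
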