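import Pool.Agent.V5helper98.CN.Mom

/-!
# Few discriminants with a large value `L(1, χ_D)`
-/

set_option autoImplicit false

namespace Pool.Agent.V5helper98.CN

open Finset Filter Pool.Agent.H38R2.CG
open scoped Classical

lemma abs_chi_le (D : ℤ) (n : ℕ) : |((chi D n : ℤ) : ℝ)| ≤ 1 := by
  have e1 : chi D n = chi2 D ^ (padicValNat 2 n) * jacobiSym D (od n) := rfl
  rw [e1]
  push_cast
  rw [abs_mul, abs_pow]
  exact mul_le_one₀ (pow_le_one₀ (abs_nonneg _) (abs_chi2 _)) (abs_nonneg _) (LM2h.abs_jac _ _)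

/-- the asymptotic inequality -/
lemma asy (η C : ℝ) (hη : 0 < η) (hη1 : η ≤ 1) (hC : 0 < C) : ∃ L0 : ℝ, 1 ≤ L0 ∧ ∀ L : ℝ, L0 ≤ L →
    6 ≤ L ^ η ∧ C * (1 + L) ^ 3 * (Real.exp (-(L / 4)) + Real.exp (-(L ^ η / 4))) ≤
      Real.exp (-(L ^ η / 8)) := by
  have t1 : Tendsto (fun L : ℝ => (L ^ η) ^ (3 / η) * Real.exp (-(1 / 8) * L ^ η)) atTop (nhds 0) :=
    (tendsto_rpow_mul_exp_neg_mul_atTop_nhds_zero (3 / η) (1 / 8) (by norm_num)).comp
      (tendsto_rpow_atTop hη)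
  have t2 := t1.eventually (eventually_le_nhds (show (0 : ℝ) < 1 / (16 * C) by positivity))
  have t3 : ∀ᶠ L : ℝ in atTop, 6 ≤ L ^ η :=
    (tendsto_rpow_atTop hη).eventually (eventually_ge_atTop 6)
  obtain ⟨L0, hL0⟩ := eventually_atTop.1 (t2.and t3)
  refine ⟨max L0 1, le_max_right _ _, fun L hL => ?_⟩
  have hL1 : 1 ≤ L := (le_max_right _ _).trans hL
  obtain ⟨h1, h2⟩ := hL0 L ((le_max_left _ _).trans hL)
  refine ⟨h2, ?_⟩
  have hL0' : 0 ≤ L := by linarith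
  have h3 : (L ^ η) ^ (3 / η) = L ^ 3 := by
    rw [← Real.rpow_mul hL0', mul_div_cancel₀ _ hη.ne']
    norm_cast
  rw [h3] at h1
  have h4 : L ^ η ≤ L := by
    calc L ^ η ≤ L ^ (1 : ℝ) := Real.rpow_le_rpow_of_exponent_le hL1 hη1
      _ = L := Real.rpow_one L
  have h5 : Real.exp (-(L / 4)) ≤ Real.exp (-(L ^ η / 4)) := Real.exp_le_exp.2 (by linarith)
  have h6 : Real.exp (-(L ^ η / 4)) = Real.exp (-(1 / 8) * L ^ η) * Real.exp (-(L ^ η / 8)) := by
    rw [← Real.exp_add]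
    congr 1
    ring
  have h7 : (1 + L) ^ 3 ≤ 8 * L ^ 3 := by
    calc (1 + L) ^ 3 ≤ (2 * L) ^ 3 := pow_le_pow_left₀ (by linarith) (by linarith) 3
      _ = _ := by ring
  calc C * (1 + L) ^ 3 * (Real.exp (-(L / 4)) + Real.exp (-(L ^ η / 4))) ≤
      C * (8 * L ^ 3) * (Real.exp (-(L ^ η / 4)) + Real.exp (-(L ^ η / 4))) := by
        gcongr
    _ = 16 * C * (L ^ 3 * Real.exp (-(1 / 8) * L ^ η)) * Real.exp (-(L ^ η / 8)) := by
        rw [h6]
        ring
    _ ≤ 16 * C * (1 / (16 * C)) * Real.exp (-(L ^ η / 8)) := by gcongr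
    _ = _ := by
        rw [mul_one_div_cancel (by positivity), one_mul]

theorem few_large (η : ℝ) (hη : 0 < η) (hη1 : η ≤ 1) : ∃ X0 : ℕ, ∀ X : ℕ, X0 ≤ X →
    (((Ioc 0 X).filter (fun D => IsFund D ∧ Real.log X ^ η < Lone D)).card : ℝ) ≤
      X * Real.exp (-(Real.log X ^ η / 8)) := by
  obtain ⟨C1, hC1, hmom⟩ := moment
  obtain ⟨C2, hC2, htail⟩ := W627.LT.p3a
  -- constants
  obtain ⟨L0, hL0, hasy⟩ := asy η (100 * C1) hη hη1 (by positivity)
  have t1 : Tendsto (fun x : ℝ => Real.log x / x ^ (1 / 4 : ℝ)) atTop (nhds 0) :=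
    (isLittleO_log_rpow_atTop (by norm_num : (0 : ℝ) < 1 / 4)).tendsto_div_nhds_zero
  have t2 := (t1.comp (tendsto_natCast_atTop_atTop (R := ℝ))).eventually
    (eventually_le_nhds (show (0 : ℝ) < 1 / C2 by positivity))
  have t3 : ∀ᶠ X : ℕ in atTop, L0 ≤ Real.log X :=
    (Real.tendsto_log_atTop.comp (tendsto_natCast_atTop_atTop (R := ℝ))).eventually
      (eventually_ge_atTop L0)
  obtain ⟨X0, hX0⟩ := eventually_atTop.1 (t2.and (t3.and (eventually_ge_atTop 2)))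
  refine ⟨X0, fun X hX => ?_⟩
  obtain ⟨g1, g2, g3⟩ := hX0 X hX
  simp only [Function.comp] at g1
  have hXr : (2 : ℝ) ≤ X := by exact_mod_cast g3
  have hX0' : (0 : ℝ) < X := by linarith
  set L := Real.log X with hL
  have hL1 : 1 ≤ L := hL0.trans g2
  obtain ⟨hL6, hfin⟩ := hasy L g2
  have hexpL : Real.exp L = X := Real.exp_log hX0'
  have hLη : L ^ η ≤ L := by
    calc L ^ η ≤ L ^ (1 : ℝ) := Real.rpow_le_rpow_of_exponent_le hL1 hη1
      _ = L := Real.rpow_one L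
  -- the parameters
  set y : ℕ := ⌊Real.exp (L ^ η / 2)⌋₊ with hy
  set N : ℕ := ⌈Real.exp (3 / 4 * L)⌉₊ with hN
  have hey : (2 : ℝ) ≤ Real.exp (L ^ η / 2) := by
    have h1 := Real.add_one_le_exp (L ^ η / 2)
    linarith
  have hyle : (y : ℝ) ≤ Real.exp (L ^ η / 2) := Nat.floor_le (Real.exp_pos _).le
  have hyge : Real.exp (L ^ η / 2) / 2 ≤ y := by
    have h1 := Nat.lt_floor_add_one (Real.exp (L ^ η / 2))
    rw [← hy] at h1
    linarith
  have hy1 : 1 ≤ y := by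
    rw [hy, Nat.one_le_floor_iff]
    linarith
  have hNge : Real.exp (3 / 4 * L) ≤ N := Nat.le_ceil _
  have heN : 1 ≤ Real.exp (3 / 4 * L) := Real.one_le_exp (by linarith)
  have hNle : (N : ℝ) ≤ 2 * Real.exp (3 / 4 * L) := by
    have h1 := Nat.ceil_lt_add_one (Real.exp_pos (3 / 4 * L)).le
    rw [← hN] at h1
    linarith
  have hN1 : 1 ≤ N := by
    have : (1 : ℝ) ≤ N := heN.trans hNge
    exact_mod_cast this
  have hN0 : (0 : ℝ) < N := by exact_mod_cast hN1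
  have hyN : y ≤ N := by
    have : (y : ℝ) ≤ N := by
      refine hyle.trans (le_trans (Real.exp_le_exp.2 ?_) hNge)
      linarith
    exact_mod_cast this
  have hlogN : Real.log N ≤ L := by
    have h1 := Real.log_le_log hN0 hNle
    rw [Real.log_mul (by norm_num) (Real.exp_pos _).ne', Real.log_exp] at h1
    have h2 : Real.log 2 ≤ 1 / 4 * L := by
      have h3 := Real.log_two_lt_d9
      have h4 : 6 ≤ L := hL6.trans hLη
      linarith
    linarith
  have hlogN0 : 0 ≤ Real.log N := Real.log_nonneg (by exact_mod_cast hN1)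
  have hlog2 : ((Nat.log 2 N : ℕ) : ℝ) + 1 ≤ 2 * (1 + L) := by
    have h1 : 2 ^ Nat.log 2 N ≤ N := Nat.pow_log_le_self 2 (by omega)
    have h2 : ((2 : ℝ)) ^ Nat.log 2 N ≤ N := by exact_mod_cast h1
    have h3 := Real.log_le_log (by positivity) h2
    rw [Real.log_pow] at h3
    have h4 := Real.log_two_gt_d9
    have h5 : (Nat.log 2 N : ℝ) * (1 / 2) ≤ (Nat.log 2 N : ℝ) * Real.log 2 :=
      mul_le_mul_of_nonneg_left (by linarith) (Nat.cast_nonneg _)
    linarith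
  -- large value forces a large tail
  have hbig : ∀ D ∈ (Ioc 0 X).filter (fun D => IsFund D ∧ L ^ η < Lone D),
      (1 : ℝ) ≤ (∑ n ∈ Ioc y N, ((chi D n : ℤ) : ℝ) / n) ^ 2 := by
    intro D hD
    rw [mem_filter, mem_Ioc] at hD
    obtain ⟨⟨hD0, hDX⟩, hf, hbig⟩ := hD
    have h1 := htail D hf N hN1
    have h2 : C2 * √(D : ℝ) * Real.log D / N ≤ 1 := by
      have hDr : (0 : ℝ) < D := by exact_mod_cast hD0
      have hDXr : (D : ℝ) ≤ X := by exact_mod_cast hDX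
      have h3 : √(D : ℝ) ≤ √(X : ℝ) := Real.sqrt_le_sqrt hDXr
      have h4 : Real.log D ≤ L := Real.log_le_log hDr hDXr
      have h5 : 0 ≤ Real.log D := Real.log_nonneg (by exact_mod_cast hD0)
      rw [div_le_one hN0]
      have hsX : √(X : ℝ) = (X : ℝ) ^ (1 / 2 : ℝ) := Real.sqrt_eq_rpow _
      have hX34 : Real.exp (3 / 4 * L) = (X : ℝ) ^ (3 / 4 : ℝ) := by
        rw [Real.rpow_def_of_pos hX0', ← hL]
        congr 1
        ring
      have h6 : C2 * L ≤ (X : ℝ) ^ (1 / 4 : ℝ) := by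
        rw [div_le_div_iff₀ (by positivity) hC2] at g1
        linarith
      calc C2 * √(D : ℝ) * Real.log D ≤ C2 * √(X : ℝ) * L := by gcongr
        _ = (X : ℝ) ^ (1 / 2 : ℝ) * (C2 * L) := by rw [hsX]; ring
        _ ≤ (X : ℝ) ^ (1 / 2 : ℝ) * (X : ℝ) ^ (1 / 4 : ℝ) := by gcongr
        _ = (X : ℝ) ^ (3 / 4 : ℝ) := by
            rw [← Real.rpow_add hX0']
            norm_num
        _ ≤ N := by rw [← hX34]; exact hNge
    have h3 := (abs_le.1 (h1.trans h2)).2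
    have hsplit : ∑ n ∈ Icc 1 N, ((chi D n : ℤ) : ℝ) / n =
        ∑ n ∈ Icc 1 y, ((chi D n : ℤ) : ℝ) / n + ∑ n ∈ Ioc y N, ((chi D n : ℤ) : ℝ) / n := by
      rw [← sum_union]
      · congr 1
        ext n
        simp only [mem_Icc, mem_union, mem_Ioc]
        omega
      · rw [disjoint_left]
        intro n hn hn'
        rw [mem_Icc] at hn
        rw [mem_Ioc] at hn'
        omega
    have hhead : ∑ n ∈ Icc 1 y, ((chi D n : ℤ) : ℝ) / n ≤ 1 + L ^ η / 2 := by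
      calc ∑ n ∈ Icc 1 y, ((chi D n : ℤ) : ℝ) / n ≤ ∑ n ∈ Icc 1 y, (1 : ℝ) / n := by
            refine sum_le_sum fun n _ => ?_
            exact div_le_div_of_nonneg_right ((le_abs_self _).trans (abs_chi_le _ _))
              (Nat.cast_nonneg n)
        _ ≤ 1 + Real.log y := har_le y
        _ ≤ 1 + L ^ η / 2 := by
            have := Real.log_le_log (by exact_mod_cast hy1) hyle
            rw [Real.log_exp] at this
            linarith
    rw [hsplit] at h3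
    have h4 : 1 ≤ ∑ n ∈ Ioc y N, ((chi D n : ℤ) : ℝ) / n := by linarith
    nlinarith
  have hcount : (((Ioc 0 X).filter (fun D => IsFund D ∧ L ^ η < Lone D)).card : ℝ) ≤
      ∑ D ∈ Ioc 0 X, (∑ n ∈ Ioc y N, ((chi D n : ℤ) : ℝ) / n) ^ 2 := by
    calc (((Ioc 0 X).filter (fun D => IsFund D ∧ L ^ η < Lone D)).card : ℝ) =
        ∑ D ∈ (Ioc 0 X).filter (fun D => IsFund D ∧ L ^ η < Lone D), (1 : ℝ) := by simp
      _ ≤ ∑ D ∈ (Ioc 0 X).filter (fun D => IsFund D ∧ L ^ η < Lone D),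
          (∑ n ∈ Ioc y N, ((chi D n : ℤ) : ℝ) / n) ^ 2 := sum_le_sum hbig
      _ ≤ _ := sum_le_sum_of_subset_of_nonneg (filter_subset _ _) fun D _ _ => sq_nonneg _
  refine hcount.trans ((hmom X y N hy1 hN1).trans ?_)
  have hsy : Real.exp (L ^ η / 4) / 2 ≤ √(y : ℝ) := by
    apply Real.le_sqrt_of_sq_le
    have h0 : Real.exp (L ^ η / 2) = Real.exp (L ^ η / 4) ^ 2 := by
      rw [← Real.exp_nat_mul]
      congr 1
      push_cast
      ring
    have h1 : (Real.exp (L ^ η / 4) / 2) ^ 2 = Real.exp (L ^ η / 2) / 4 := by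
      rw [h0]
      ring
    rw [h1]
    have := Real.exp_pos (L ^ η / 2)
    linarith
  have hl1 : 1 + Real.log N ≤ 1 + L := by linarith
  have hNX : (N : ℝ) ≤ 2 * (X * Real.exp (-(L / 4))) := by
    have : Real.exp (3 / 4 * L) = X * Real.exp (-(L / 4)) := by
      rw [← hexpL, ← Real.exp_add]
      congr 1
      ring
    rw [← this]
    exact hNle
  have hexp4 : 0 < Real.exp (L ^ η / 4) := Real.exp_pos _
  have k1 : C1 * (1 + Real.log N) ^ 2 * N ≤
      C1 * (1 + L) ^ 3 * (2 * (X * Real.exp (-(L / 4)))) := by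
    have : (1 + Real.log N) ^ 2 ≤ (1 + L) ^ 3 := by
      calc (1 + Real.log N) ^ 2 ≤ (1 + L) ^ 2 := pow_le_pow_left₀ (by linarith) hl1 2
        _ ≤ (1 + L) ^ 3 := pow_le_pow_right₀ (by linarith) (by norm_num)
    gcongr
  have k2 : C1 * X * ((Nat.log 2 N + 1) * (1 + Real.log N) ^ 2 / √(y : ℝ)) ≤
      C1 * X * (4 * (1 + L) ^ 3 * Real.exp (-(L ^ η / 4))) := by
    apply mul_le_mul_of_nonneg_left _ (by positivity)
    rw [div_le_iff₀ (lt_of_lt_of_le (by positivity) hsy)]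
    have h1 : (1 + Real.log N) ^ 2 ≤ (1 + L) ^ 2 := pow_le_pow_left₀ (by linarith) hl1 2
    calc ((Nat.log 2 N : ℝ) + 1) * (1 + Real.log N) ^ 2 ≤ 2 * (1 + L) * (1 + L) ^ 2 := by
          gcongr
      _ = 4 * (1 + L) ^ 3 * Real.exp (-(L ^ η / 4)) * (Real.exp (L ^ η / 4) / 2) := by
          rw [Real.exp_neg]
          field_simp
          ring
      _ ≤ _ := by gcongr
  calc C1 * (1 + Real.log N) ^ 2 * N +
        C1 * X * ((Nat.log 2 N + 1) * (1 + Real.log N) ^ 2 / √(y : ℝ)) ≤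
      C1 * (1 + L) ^ 3 * (2 * (X * Real.exp (-(L / 4)))) +
        C1 * X * (4 * (1 + L) ^ 3 * Real.exp (-(L ^ η / 4))) := add_le_add k1 k2
    _ = X * (C1 * (1 + L) ^ 3 * (2 * Real.exp (-(L / 4)) + 4 * Real.exp (-(L ^ η / 4)))) := by ring
    _ ≤ X * (100 * C1 * (1 + L) ^ 3 * (Real.exp (-(L / 4)) + Real.exp (-(L ^ η / 4)))) := by
        apply mul_le_mul_of_nonneg_left _ hX0'.le
        have e1 := Real.exp_pos (-(L / 4))
        have e2 := Real.exp_pos (-(L ^ η / 4))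
        have e3 : 0 < C1 * (1 + L) ^ 3 := by positivity
        calc C1 * (1 + L) ^ 3 * (2 * Real.exp (-(L / 4)) + 4 * Real.exp (-(L ^ η / 4))) ≤
            C1 * (1 + L) ^ 3 * (100 * (Real.exp (-(L / 4)) + Real.exp (-(L ^ η / 4)))) := by
              apply mul_le_mul_of_nonneg_left _ e3.le
              linarith
          _ = _ := by ring
    _ ≤ X * Real.exp (-(L ^ η / 8)) := mul_le_mul_of_nonneg_left hfin hX0'.le

end Pool.Agent.V5helper98.CN
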