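import Pool.Agent.V5helper98.CN.Cls
import Pool.Agent.V5helper98.CN.Lb
import Pool.Agent.Q276.PL.All

/-!
# Class numbers of almost all real quadratic fields
-/

set_option autoImplicit false

namespace Pool.Agent.V5helper98.CN

open Finset Filter NumberField Pool.Agent.H38R2.CG Pool.Agent.Q276.PL
open scoped Classical

/-- The field `ℚ(√d)` inside `ℝ`. -/
noncomputable abbrev Kd (d : ℕ) : IntermediateField ℚ ℝ := IntermediateField.adjoin ℚ {(√(d : ℝ) : ℝ)}

/-- The class number of `ℚ(√d)`. -/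
noncomputable def hh (d : ℕ) : ℕ := Nat.card (ClassGroup (𝓞 (Kd d)))

lemma quad {d : ℕ} (hd : 1 < d) (hs : Squarefree d) :
    NumberField (Kd d) ∧ Module.finrank ℚ (Kd d) = 2 ∧ ∃ x : Kd d, x ^ 2 = (d : Kd d) := by
  have hsq : (√(d : ℝ)) ^ 2 = (d : ℝ) := Real.sq_sqrt (Nat.cast_nonneg d)
  have hirr : Irreducible (Polynomial.X ^ 2 - Polynomial.C (d : ℚ) : Polynomial ℚ) := by
    apply X_pow_sub_C_irreducible_of_prime Nat.prime_two
    intro b hb
    have h1 : IsSquare ((d : ℚ)) := ⟨b, by rw [← hb]; ring⟩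
    have h2 : IsSquare d := by
      rw [← Rat.isSquare_natCast_iff]
      exact h1
    obtain ⟨c, hc⟩ := h2
    have h3 : IsUnit c := hs c ⟨1, by rw [mul_one]; exact hc⟩
    rw [Nat.isUnit_iff] at h3
    rw [h3] at hc
    omega
  have hroot : Polynomial.aeval (√(d : ℝ)) (Polynomial.X ^ 2 - Polynomial.C (d : ℚ)) = 0 := by
    simp [hsq]
  have hmonic : (Polynomial.X ^ 2 - Polynomial.C (d : ℚ)).Monic :=
    Polynomial.monic_X_pow_sub_C _ two_ne_zero
  have hint : IsIntegral ℚ (√(d : ℝ)) := ⟨_, hmonic, by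
    rw [← Polynomial.aeval_def]; exact hroot⟩
  have hmin : minpoly ℚ (√(d : ℝ)) = Polynomial.X ^ 2 - Polynomial.C (d : ℚ) :=
    (minpoly.eq_of_irreducible_of_monic hirr hroot hmonic).symm
  have hfd : FiniteDimensional ℚ (Kd d) := IntermediateField.adjoin.finiteDimensional hint
  refine ⟨{ to_charZero := inferInstance, to_finiteDimensional := hfd }, ?_, ?_⟩
  · rw [IntermediateField.adjoin.finrank hint, hmin]
    exact Polynomial.natDegree_X_pow_sub_C
  · refine ⟨⟨√(d : ℝ), IntermediateField.mem_adjoin_simple_self ℚ _⟩, ?_⟩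
    apply Subtype.ext
    push_cast
    exact hsq

lemma isFund_dsc {d : ℕ} (hd : 1 < d) (hs : Squarefree d) : IsFund (dsc d) := by
  unfold dsc
  split_ifs with h
  · exact ⟨hd, Or.inl ⟨h, hs⟩⟩
  · have h4 : d % 4 ≠ 0 := by
      intro h0
      have h1 : 2 * 2 ∣ d := by omega
      have h2 := hs 2 h1
      rw [Nat.isUnit_iff] at h2
      omega
    exact ⟨by omega, Or.inr ⟨d, rfl, by omega, hs⟩⟩

lemma dsc_le (d : ℕ) : dsc d ≤ 4 * d := by
  unfold dsc
  split_ifs <;> omega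

lemma dsc_inj {d d' : ℕ} (h : dsc d = dsc d') : d = d' := by
  unfold dsc at h
  split_ifs at h <;> omega

/-- the field `ℚ(√d)` has discriminant `dsc d` -/
lemma discr_Kd (K : Type) [Field K] [NumberField K] {d : ℕ} (hd : 1 < d) (hs : Squarefree d)
    (h2 : Module.finrank ℚ K = 2) (hx : ∃ x : K, x ^ 2 = (d : K)) :
    discr K = ((dsc d : ℕ) : ℤ) := by
  rw [T_N0d K d hd hs h2 hx]
  unfold dsc
  split_ifs <;> push_cast <;> rfl

/-- no small unit and a moderate value `L(1, χ)` -/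
lemma class_le {d : ℕ} (hd : 1 < d) (hs : Squarefree d) {B : ℝ} (hB : 1 < B)
    (hno : ∀ t u : ℕ, 0 < t → 0 < u →
      (t : ℤ) ^ 2 - ((dsc d : ℕ) : ℤ) * (u : ℤ) ^ 2 = 4 →
        B < ((t : ℝ) + u * √((dsc d : ℕ) : ℝ)) / 2) :
    (hh d : ℝ) * Real.log B ≤ 2 * √(d : ℝ) * Lone (dsc d) := by
  obtain ⟨h1, h2, h3⟩ := quad hd hs
  have hf := isFund_dsc hd hs
  have h4 := cls_bound (Kd d) (dsc d) hf h2 (discr_Kd (Kd d) hd hs h2 h3) hB hno
  refine h4.trans ?_
  have h5 : 0 ≤ Lone (dsc d) :=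
    (W627.LT.p3 (Kd d) (dsc d) hf h2 (discr_Kd (Kd d) hd hs h2 h3)).1
  apply mul_le_mul_of_nonneg_right _ h5
  have h6 : √((dsc d : ℕ) : ℝ) ≤ √(4 * (d : ℝ)) := by
    apply Real.sqrt_le_sqrt
    exact_mod_cast dsc_le d
  refine h6.trans (le_of_eq ?_)
  rw [Real.sqrt_mul (by norm_num), show (4 : ℝ) = 2 ^ 2 by norm_num, Real.sqrt_sq (by norm_num)]

lemma Lone_log : ∃ C : ℝ, 0 < C ∧ ∀ D : ℕ, IsFund D → Lone D ≤ C * (1 + Real.log D) := by
  obtain ⟨C, hC, h⟩ := W627.LT.p3a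
  refine ⟨1 + C, by positivity, fun D hD => ?_⟩
  have hD1 : 1 ≤ D := by have := hD.1; omega
  have hDr : (1 : ℝ) ≤ D := by exact_mod_cast hD1
  have hl : 0 ≤ Real.log D := Real.log_nonneg hDr
  have h1 := (abs_le.1 (h D hD D hD1)).2
  have h2 : ∑ n ∈ Icc 1 D, ((chi D n : ℤ) : ℝ) / n ≤ 1 + Real.log D := by
    refine le_trans (sum_le_sum fun n _ => ?_) (har_le D)
    exact div_le_div_of_nonneg_right ((le_abs_self _).trans (abs_chi_le _ _)) (Nat.cast_nonneg n)
  have h3 : C * √(D : ℝ) * Real.log D / D ≤ C * Real.log D := by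
    have hs : √(D : ℝ) ≤ D := by
      rw [Real.sqrt_le_left (by positivity)]
      nlinarith
    rw [div_le_iff₀ (by positivity)]
    have : 0 ≤ C * Real.log D := by positivity
    nlinarith
  nlinarith

/-- the trivial bound -/
lemma hh_trivial : ∃ C : ℝ, 0 < C ∧ ∀ d : ℕ, 1 < d → Squarefree d →
    (hh d : ℝ) ≤ C * √(d : ℝ) * (1 + Real.log d) := by
  obtain ⟨C, hC, hL⟩ := Lone_log
  refine ⟨16 * C, by positivity, fun d hd hs => ?_⟩
  have hf := isFund_dsc hd hs
  have hdr : (1 : ℝ) < d := by exact_mod_cast hd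
  have hld : 0 ≤ Real.log d := Real.log_nonneg hdr.le
  have h1 := class_le hd hs (B := 2) (by norm_num) (by
    intro t u ht hu htu
    have hD5 : 5 ≤ dsc d := by
      unfold dsc
      split_ifs <;> omega
    have h3 : 3 ≤ t := by
      by_contra hcon
      have : t ≤ 2 := by omega
      have h4 : (t : ℤ) ^ 2 ≤ 4 := by
        have : (t : ℤ) ≤ 2 := by exact_mod_cast this
        nlinarith
      have h5 : (5 : ℤ) ≤ (dsc d : ℕ) := by exact_mod_cast hD5
      have h6 : (1 : ℤ) ≤ (u : ℤ) ^ 2 := by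
        have : (1 : ℤ) ≤ u := by exact_mod_cast hu
        nlinarith
      nlinarith
    have h4 : (2 : ℝ) ≤ √((dsc d : ℕ) : ℝ) := by
      apply Real.le_sqrt_of_sq_le
      have : (5 : ℝ) ≤ (dsc d : ℕ) := by exact_mod_cast hD5
      linarith
    have h5 : (3 : ℝ) ≤ t := by exact_mod_cast h3
    have h6 : (1 : ℝ) ≤ u := by exact_mod_cast hu
    nlinarith)
  have h2 := hL (dsc d) hf
  have h3 : Real.log ((dsc d : ℕ) : ℝ) ≤ 2 + Real.log d := by
    have h4 : ((dsc d : ℕ) : ℝ) ≤ 4 * d := by exact_mod_cast dsc_le d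
    have h5 : (0 : ℝ) < (dsc d : ℕ) := by
      have := hf.1
      exact_mod_cast (by omega : 0 < dsc d)
    have h6 := Real.log_le_log h5 h4
    rw [Real.log_mul (by norm_num) (by positivity)] at h6
    have h7 : Real.log 4 ≤ 2 := by
      rw [show (4 : ℝ) = 2 ^ 2 by norm_num, Real.log_pow]
      have := Real.log_two_lt_d9
      push_cast
      linarith
    linarith
  have h4 : Lone (dsc d) ≤ C * (3 * (1 + Real.log d)) := by
    refine h2.trans ?_
    apply mul_le_mul_of_nonneg_left _ hC.le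
    linarith
  have h5 := Real.log_two_gt_d9
  have h6 : (hh d : ℝ) * (1 / 2) ≤ (hh d : ℝ) * Real.log 2 :=
    mul_le_mul_of_nonneg_left (by linarith) (Nat.cast_nonneg _)
  have h7 : 2 * √(d : ℝ) * Lone (dsc d) ≤ 2 * √(d : ℝ) * (C * (3 * (1 + Real.log d))) :=
    mul_le_mul_of_nonneg_left h4 (by positivity)
  have h8 : 0 ≤ C * √(d : ℝ) * (1 + Real.log d) := by positivity
  nlinarith

/-- eventually in `X` -/
theorem main_large (δ : ℝ) (hδ : 0 < δ) (hδ2 : δ < 1 / 2) : ∃ (M : ℝ) (X0 : ℕ), 0 < M ∧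
    ∀ X : ℕ, X0 ≤ X →
    (((Icc 2 X).filter (fun d : ℕ => Squarefree d ∧
      √(d : ℝ) / Real.log X ^ (3 / 2 - δ) < (hh d : ℝ))).card : ℝ) ≤
      M * X * Real.exp (-(Real.log X ^ (δ / 16))) := by
  obtain ⟨M1, hM1⟩ := rgb_true (δ / 2) (by linarith) (by linarith)
  obtain ⟨X1, hX1⟩ := few_large (δ / 4) (by linarith) (by linarith)
  -- largeness conditions
  have t1 : ∀ᶠ X : ℕ in atTop, (4 : ℝ) ≤ Real.log X ^ (δ / 4) :=
    ((tendsto_rpow_atTop (by linarith : 0 < δ / 4)).comp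
      (Real.tendsto_log_atTop.comp (tendsto_natCast_atTop_atTop (R := ℝ)))).eventually
      (eventually_ge_atTop 4)
  have t2 : ∀ᶠ X : ℕ in atTop, (8 : ℝ) ≤ Real.log X ^ (3 * δ / 16) :=
    ((tendsto_rpow_atTop (by linarith : 0 < 3 * δ / 16)).comp
      (Real.tendsto_log_atTop.comp (tendsto_natCast_atTop_atTop (R := ℝ)))).eventually
      (eventually_ge_atTop 8)
  have t3 : ∀ᶠ X : ℕ in atTop, (2 : ℝ) ≤ Real.log X :=
    (Real.tendsto_log_atTop.comp (tendsto_natCast_atTop_atTop (R := ℝ))).eventually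
      (eventually_ge_atTop 2)
  obtain ⟨X2, hX2⟩ := eventually_atTop.1 (t1.and (t2.and (t3.and (eventually_ge_atTop 2))))
  refine ⟨|M1| + 4, max X1 X2, by positivity, fun X hX => ?_⟩
  obtain ⟨g1, g2, g3, g4⟩ := hX2 X ((le_max_right _ _).trans hX)
  have hXX1 : X1 ≤ 4 * X := by
    have := (le_max_left X1 X2).trans hX
    omega
  have hXr : (2 : ℝ) ≤ X := by exact_mod_cast g4
  have hXp : (0 : ℝ) < X := by linarith
  set L := Real.log X with hL
  have hL0 : 0 < L := by linarith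
  have hL1 : 1 ≤ L := by linarith
  have hL4 : Real.log ((4 * X : ℕ) : ℝ) ≤ 2 * L := by
    push_cast
    rw [Real.log_mul (by norm_num) hXp.ne', show (4 : ℝ) = 2 ^ 2 by norm_num, Real.log_pow]
    have := Real.log_two_lt_d9
    push_cast
    linarith
  have hLL4 : L ≤ Real.log ((4 * X : ℕ) : ℝ) := by
    apply Real.log_le_log hXp
    push_cast
    linarith
  set L4 := Real.log ((4 * X : ℕ) : ℝ) with hL4d
  -- the bad set
  set S1 := (Icc 2 X).filter (fun d : ℕ => Squarefree d ∧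
    SmallUnit (dsc d) (Real.exp (L ^ (3 / 2 - δ / 2)))) with hS1
  set S2 := (Ioc 0 (4 * X)).filter (fun D => IsFund D ∧ L4 ^ (δ / 4) < Lone D) with hS2
  have hsub : (Icc 2 X).filter (fun d : ℕ => Squarefree d ∧
      √(d : ℝ) / L ^ (3 / 2 - δ) < (hh d : ℝ)) ⊆
      S1 ∪ (Icc 2 X).filter (fun d : ℕ => dsc d ∈ S2) := by
    intro d hd
    rw [mem_filter, mem_Icc] at hd
    obtain ⟨⟨hd2, hdX⟩, hs, hbig⟩ := hd
    rw [mem_union]
    by_contra hcon
    push Not at hcon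
    obtain ⟨c1, c2⟩ := hcon
    have hd1 : 1 < d := by omega
    have hf := isFund_dsc hd1 hs
    have hno : ¬ SmallUnit (dsc d) (Real.exp (L ^ (3 / 2 - δ / 2))) := by
      intro h
      apply c1
      rw [hS1, mem_filter, mem_Icc]
      exact ⟨⟨hd2, hdX⟩, hs, h⟩
    have hLo : Lone (dsc d) ≤ L4 ^ (δ / 4) := by
      by_contra hcon
      push Not at hcon
      apply c2
      rw [mem_filter, mem_Icc, hS2, mem_filter, mem_Ioc]
      have h1 := dsc_le d
      have h2 := hf.1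
      exact ⟨⟨hd2, hdX⟩, ⟨by omega, by omega⟩, hf, hcon⟩
    have hLpos : 0 < L ^ (3 / 2 - δ / 2) := Real.rpow_pos_of_pos hL0 _
    have h1 := class_le hd1 hs (B := Real.exp (L ^ (3 / 2 - δ / 2))) (Real.one_lt_exp_iff.2 hLpos) (by
      intro t u ht hu htu
      by_contra hcon
      push Not at hcon
      exact hno ⟨t, u, ht, hu, Or.inl htu, hcon⟩)
    rw [Real.log_exp] at h1
    have h2 : L4 ^ (δ / 4) ≤ 2 * L ^ (δ / 4) := by
      calc L4 ^ (δ / 4) ≤ (2 * L) ^ (δ / 4) :=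
            Real.rpow_le_rpow (by linarith) hL4 (by linarith)
        _ = 2 ^ (δ / 4) * L ^ (δ / 4) := Real.mul_rpow (by norm_num) hL0.le
        _ ≤ 2 * L ^ (δ / 4) := by
            apply mul_le_mul_of_nonneg_right _ (Real.rpow_nonneg hL0.le _)
            calc (2 : ℝ) ^ (δ / 4) ≤ 2 ^ (1 : ℝ) :=
                  Real.rpow_le_rpow_of_exponent_le (by norm_num) (by linarith)
              _ = 2 := Real.rpow_one 2
    have h3 : (hh d : ℝ) * L ^ (3 / 2 - δ / 2) ≤ √(d : ℝ) * (4 * L ^ (δ / 4)) := by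
      refine h1.trans ?_
      calc 2 * √(d : ℝ) * Lone (dsc d) ≤ 2 * √(d : ℝ) * (2 * L ^ (δ / 4)) :=
            mul_le_mul_of_nonneg_left (hLo.trans h2) (by positivity)
        _ = _ := by ring
    have h4 : 4 * L ^ (δ / 4) ≤ L ^ (δ / 2) := by
      calc 4 * L ^ (δ / 4) ≤ L ^ (δ / 4) * L ^ (δ / 4) :=
            mul_le_mul_of_nonneg_right g1 (Real.rpow_nonneg hL0.le _)
        _ = L ^ (δ / 2) := by
            rw [← Real.rpow_add hL0]
            congr 1
            ring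
    have h5 : (hh d : ℝ) ≤ √(d : ℝ) / L ^ (3 / 2 - δ) := by
      rw [le_div_iff₀ (Real.rpow_pos_of_pos hL0 _)]
      have h6 : L ^ (3 / 2 - δ / 2) = L ^ (3 / 2 - δ) * L ^ (δ / 2) := by
        rw [← Real.rpow_add hL0]
        congr 1
        ring
      have h7 : 0 < L ^ (δ / 2) := Real.rpow_pos_of_pos hL0 _
      rw [h6] at h3
      have h8 : (hh d : ℝ) * L ^ (3 / 2 - δ) * L ^ (δ / 2) ≤ √(d : ℝ) * L ^ (δ / 2) := by
        calc (hh d : ℝ) * L ^ (3 / 2 - δ) * L ^ (δ / 2) =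
            (hh d : ℝ) * (L ^ (3 / 2 - δ) * L ^ (δ / 2)) := by ring
          _ ≤ √(d : ℝ) * (4 * L ^ (δ / 4)) := h3
          _ ≤ √(d : ℝ) * L ^ (δ / 2) := mul_le_mul_of_nonneg_left h4 (Real.sqrt_nonneg _)
      exact le_of_mul_le_mul_right h8 h7
    linarith
  have hc1 : (S1.card : ℝ) ≤ |M1| * X * Real.exp (-(L ^ (δ / 16))) := by
    have h1 := hM1 X g4
    have e1 : δ / 2 / 8 = δ / 16 := by ring
    rw [e1] at h1
    refine h1.trans ?_
    apply mul_le_mul_of_nonneg_right _ (Real.exp_pos _).le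
    exact mul_le_mul_of_nonneg_right (le_abs_self _) hXp.le
  have hc2 : (((Icc 2 X).filter (fun d : ℕ => dsc d ∈ S2)).card : ℝ) ≤
      4 * X * Real.exp (-(L ^ (δ / 16))) := by
    have h1 : ((Icc 2 X).filter (fun d : ℕ => dsc d ∈ S2)).card ≤ S2.card := by
      apply card_le_card_of_injOn dsc
      · intro d hd
        rw [mem_coe, mem_filter] at hd
        exact hd.2
      · intro d _ d' _ h
        exact dsc_inj h
    have h2 := hX1 (4 * X) hXX1
    have h3 : (((Icc 2 X).filter (fun d : ℕ => dsc d ∈ S2)).card : ℝ) ≤ (S2.card : ℝ) := by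
      exact_mod_cast h1
    refine h3.trans (h2.trans ?_)
    push_cast
    apply mul_le_mul_of_nonneg_left _ (by positivity)
    apply Real.exp_le_exp.2
    apply neg_le_neg
    have h4 : L ^ (δ / 4) ≤ Real.log (4 * (X : ℝ)) ^ (δ / 4) := by
      apply Real.rpow_le_rpow hL0.le _ (by linarith)
      have := hLL4
      rw [hL4d] at this
      push_cast at this
      exact this
    have h5 : L ^ (δ / 4) = L ^ (δ / 16) * L ^ (3 * δ / 16) := by
      rw [← Real.rpow_add hL0]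
      congr 1
      ring
    have h6 : 0 ≤ L ^ (δ / 16) := Real.rpow_nonneg hL0.le _
    have h7 : L ^ (δ / 16) * 8 ≤ L ^ (δ / 4) := by
      rw [h5]
      exact mul_le_mul_of_nonneg_left g2 h6
    linarith
  calc _ ≤ (((S1 ∪ (Icc 2 X).filter (fun d : ℕ => dsc d ∈ S2)).card : ℕ) : ℝ) := by
        exact_mod_cast card_le_card hsub
    _ ≤ ((S1.card + ((Icc 2 X).filter (fun d : ℕ => dsc d ∈ S2)).card : ℕ) : ℝ) := by
        exact_mod_cast card_union_le _ _
    _ ≤ |M1| * X * Real.exp (-(L ^ (δ / 16))) + 4 * X * Real.exp (-(L ^ (δ / 16))) := by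
        push_cast
        exact add_le_add hc1 hc2
    _ = _ := by ring

end Pool.Agent.V5helper98.CN
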