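import Pool.Agent.W627.LT.Base
import Pool.Agent.H38R2.CG.LM2

/-!
# The second moment of a tail of `L(1, χ_D)` over all integers `D`
-/

set_option autoImplicit false

namespace Pool.Agent.V5helper98.CN

open Finset Filter Pool.Agent.H38R2.CG

/-- odd part -/
def od (n : ℕ) : ℕ := n / 2 ^ padicValNat 2 n

lemma two_pow_mul_od {n : ℕ} (_hn : n ≠ 0) : 2 ^ padicValNat 2 n * od n = n :=
  Nat.mul_div_cancel' pow_padicValNat_dvd

lemma od_ne {n : ℕ} (hn : n ≠ 0) : od n ≠ 0 := by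
  intro h
  have := two_pow_mul_od hn
  rw [h, mul_zero] at this
  exact hn this.symm

lemma od_odd {n : ℕ} (hn : n ≠ 0) : Odd (od n) := by
  rw [← Nat.not_even_iff_odd, even_iff_two_dvd]
  have : Fact (Nat.Prime 2) := ⟨Nat.prime_two⟩
  intro h
  obtain ⟨k, hk⟩ := h
  have h1 := two_pow_mul_od hn
  rw [hk] at h1
  have h2 : 2 ^ (padicValNat 2 n + 1) ∣ n := ⟨k, by rw [pow_succ]; linarith⟩
  exact pow_succ_padicValNat_not_dvd hn h2

lemma od_le (n : ℕ) : od n ≤ n := Nat.div_le_self _ _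

lemma sf_eq {a b : ℕ} (ha : Squarefree a) (hb : Squarefree b) (h : IsSquare (a * b)) : a = b := by
  obtain ⟨m, hm⟩ := h
  have ha0 := ha.ne_zero
  have hb0 := hb.ne_zero
  apply Nat.eq_of_factorization_eq ha0 hb0
  intro p
  have h1 := ha.natFactorization_le_one p
  have h2 := hb.natFactorization_le_one p
  have hm0 : m ≠ 0 := by
    rintro rfl
    rw [mul_zero] at hm
    exact mul_ne_zero ha0 hb0 hm
  have h3 : a.factorization p + b.factorization p = 2 * m.factorization p := by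
    have h4 := congrArg (fun n => n.factorization p) hm
    rw [Nat.factorization_mul ha0 hb0, Nat.factorization_mul hm0 hm0] at h4
    simp only [Finsupp.coe_add, Pi.add_apply] at h4
    omega
  omega

/-- all `l` with `k l` a square are of the form `a c ^ 2` with the same squarefree `a` -/
lemma sq_param {k : ℕ} (hk : k ≠ 0) : ∃ a : ℕ, 1 ≤ a ∧ ∀ l : ℕ, l ≠ 0 → IsSquare (k * l) →
    ∃ c : ℕ, 1 ≤ c ∧ l = a * c ^ 2 := by
  obtain ⟨a, b, h1, h2⟩ := Nat.sq_mul_squarefree k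
  refine ⟨a, Nat.one_le_iff_ne_zero.2 h2.ne_zero, fun l hl hsq => ?_⟩
  obtain ⟨a', c, h3, h4⟩ := Nat.sq_mul_squarefree l
  have hb0 : b ≠ 0 := by
    rintro rfl
    simp at h1
    exact hk h1.symm
  have hc0 : c ≠ 0 := by
    rintro rfl
    simp at h3
    exact hl h3.symm
  have haa : a = a' := by
    apply sf_eq h2 h4
    obtain ⟨m, hm⟩ := hsq
    have h5 : (b * c) ^ 2 * (a * a') = m ^ 2 := by
      rw [pow_two m, ← hm, ← h1, ← h3]
      ring
    have h6 : (b * c) ^ 2 ∣ m ^ 2 := ⟨_, h5.symm⟩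
    rw [Nat.pow_dvd_pow_iff two_ne_zero] at h6
    obtain ⟨r, hr⟩ := h6
    refine ⟨r, ?_⟩
    have h7 : (b * c) ^ 2 * (a * a') = (b * c) ^ 2 * (r * r) := by
      rw [h5, hr]
      ring
    exact Nat.eq_of_mul_eq_mul_left (by positivity) h7
  exact ⟨c, Nat.one_le_iff_ne_zero.2 hc0, by rw [← h3, haa]; ring⟩

lemma har_le (N : ℕ) : ∑ n ∈ Icc 1 N, (1 : ℝ) / n ≤ 1 + Real.log N := by
  have h := harmonic_le_one_add_log N
  rw [harmonic_eq_sum_Icc] at h
  push_cast at h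
  simpa [one_div] using h

lemma sq_sum {m : ℕ} (hm : m ≠ 0) (y N : ℕ) (hy : 1 ≤ y) :
    ∑ n ∈ (Ioc y N).filter (fun n => IsSquare (od m * od n)), (1 : ℝ) / n ≤
      (Nat.log 2 N + 1) * (1 + Real.log N) / √(y : ℝ) := by
  obtain ⟨a, ha, hpar⟩ := sq_param (od_ne hm)
  have hy0 : (0 : ℝ) < √(y : ℝ) := Real.sqrt_pos.2 (by exact_mod_cast hy)
  set S := (Ioc y N).filter (fun n => IsSquare (od m * od n)) with hS
  have hmem : ∀ n ∈ S, y < n ∧ n ≤ N ∧ ∃ c : ℕ, 1 ≤ c ∧ od n = a * c ^ 2 := by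
    intro n hn
    rw [hS, mem_filter, mem_Ioc] at hn
    exact ⟨hn.1.1, hn.1.2, hpar _ (od_ne (by omega)) hn.2⟩
  let f : ℕ → ℕ × ℕ := fun n => (padicValNat 2 n, Nat.sqrt (od n / a))
  have hf : ∀ n ∈ S, ∀ c : ℕ, od n = a * c ^ 2 → f n = (padicValNat 2 n, c) := by
    intro n _ c hc
    simp only [f]
    rw [hc, Nat.mul_div_cancel_left _ (by omega), Nat.sqrt_eq']
  have hinj : Set.InjOn f S := by
    intro n hn n' hn' h
    obtain ⟨h1, h2, c, h3, h4⟩ := hmem n hn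
    obtain ⟨h1', h2', c', h3', h4'⟩ := hmem n' hn'
    rw [hf n hn c h4, hf n' hn' c' h4'] at h
    simp only [Prod.mk.injEq] at h
    rw [← two_pow_mul_od (by omega : n ≠ 0), ← two_pow_mul_od (by omega : n' ≠ 0), h4, h4', h.1,
      h.2]
  have hterm : ∀ n ∈ S, (1 : ℝ) / n ≤ 1 / √(y : ℝ) * (1 / ((f n).2 : ℝ)) := by
    intro n hn
    obtain ⟨h1, h2, c, h3, h4⟩ := hmem n hn
    rw [hf n hn c h4]
    have hn0 : (0 : ℝ) < n := by exact_mod_cast (by omega : 0 < n)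
    have hc0 : (0 : ℝ) < c := by exact_mod_cast h3
    have h5 : √(y : ℝ) ≤ √(n : ℝ) := Real.sqrt_le_sqrt (by exact_mod_cast h1.le)
    have h6 : (c : ℝ) ≤ √(n : ℝ) := by
      apply Real.le_sqrt_of_sq_le
      have : c ^ 2 ≤ n := by
        calc c ^ 2 ≤ a * c ^ 2 := Nat.le_mul_of_pos_left _ (by omega)
          _ = od n := h4.symm
          _ ≤ n := od_le n
      exact_mod_cast this
    have h7 : √(y : ℝ) * c ≤ n := by
      calc √(y : ℝ) * c ≤ √(n : ℝ) * √(n : ℝ) := mul_le_mul h5 h6 hc0.le (Real.sqrt_nonneg _)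
        _ = n := Real.mul_self_sqrt hn0.le
    simp only
    rw [show (1 : ℝ) / √(y : ℝ) * (1 / (c : ℝ)) = 1 / (√(y : ℝ) * c) by field_simp]
    exact one_div_le_one_div_of_le (by positivity) h7
  calc ∑ n ∈ S, (1 : ℝ) / n ≤ ∑ n ∈ S, 1 / √(y : ℝ) * (1 / ((f n).2 : ℝ)) := sum_le_sum hterm
    _ = ∑ p ∈ S.image f, 1 / √(y : ℝ) * (1 / (p.2 : ℝ)) := by
        rw [sum_image hinj]
    _ ≤ ∑ p ∈ (range (Nat.log 2 N + 1)) ×ˢ (Icc 1 N), 1 / √(y : ℝ) * (1 / (p.2 : ℝ)) := by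
        apply sum_le_sum_of_subset_of_nonneg
        · intro p hp
          rw [mem_image] at hp
          obtain ⟨n, hn, rfl⟩ := hp
          obtain ⟨h1, h2, c, h3, h4⟩ := hmem n hn
          rw [hf n hn c h4, mem_product, mem_range, mem_Icc]
          refine ⟨?_, h3, ?_⟩
          · have h5 : padicValNat 2 n ≤ Nat.log 2 n := padicValNat_le_nat_log n
            have h6 : Nat.log 2 n ≤ Nat.log 2 N := Nat.log_mono_right h2
            simp only
            omega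
          · have : c ≤ od n := by
              rw [h4]
              calc c ≤ c ^ 2 := Nat.le_self_pow two_ne_zero c
                _ ≤ a * c ^ 2 := Nat.le_mul_of_pos_left _ (by omega)
            simp only
            exact this.trans ((od_le n).trans h2)
        · intro p _ _
          positivity
    _ = (Nat.log 2 N + 1) * (1 / √(y : ℝ) * ∑ c ∈ Icc 1 N, (1 : ℝ) / c) := by
        rw [sum_product]
        simp only [sum_const, card_range, nsmul_eq_mul]
        push_cast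
        rw [← mul_sum]
    _ ≤ (Nat.log 2 N + 1) * (1 / √(y : ℝ) * (1 + Real.log N)) := by
        apply mul_le_mul_of_nonneg_left _ (by positivity)
        exact mul_le_mul_of_nonneg_left (har_le N) (by positivity)
    _ = _ := by ring

lemma sq_sqrt_sum (y N : ℕ) (hN : 1 ≤ N) :
    (∑ n ∈ Ioc y N, (1 : ℝ) / √(n : ℝ)) ^ 2 ≤ N * (1 + Real.log N) := by
  have hN1 : (1 : ℝ) ≤ N := by exact_mod_cast hN
  have hl : 0 ≤ Real.log N := Real.log_nonneg hN1
  have h1 := sq_sum_le_card_mul_sum_sq (s := Ioc y N) (f := fun n : ℕ => (1 : ℝ) / √(n : ℝ))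
  refine h1.trans ?_
  have h2 : ((Ioc y N).card : ℝ) ≤ N := by
    rw [Nat.card_Ioc]
    exact_mod_cast Nat.sub_le N y
  have h3 : ∑ n ∈ Ioc y N, ((1 : ℝ) / √(n : ℝ)) ^ 2 ≤ 1 + Real.log N := by
    calc ∑ n ∈ Ioc y N, ((1 : ℝ) / √(n : ℝ)) ^ 2 = ∑ n ∈ Ioc y N, (1 : ℝ) / n := by
          refine sum_congr rfl fun n _ => ?_
          rw [div_pow, one_pow, Real.sq_sqrt (Nat.cast_nonneg n)]
      _ ≤ ∑ n ∈ Icc 1 N, (1 : ℝ) / n := by
          apply sum_le_sum_of_subset_of_nonneg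
          · intro n hn
            rw [mem_Ioc] at hn
            rw [mem_Icc]
            omega
          · intro n _ _
            positivity
      _ ≤ _ := har_le N
  exact mul_le_mul h2 h3 (sum_nonneg fun n _ => by positivity) (by positivity)

lemma chi2_mod {D r : ℕ} (h : D % 8 = r) : chi2 (D : ℤ) = chi2 (r : ℤ) := by
  unfold chi2
  have h1 : (D : ℤ) % 8 = (r : ℤ) := by exact_mod_cast h
  have h2 : (r : ℤ) % 8 = (r : ℤ) := by
    have : r % 8 = r := by omega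
    exact_mod_cast this
  rw [h1, h2]

lemma abs_chi2 (D : ℤ) : |((chi2 D : ℤ) : ℝ)| ≤ 1 := by
  unfold chi2
  split_ifs <;> simp

/-- correlations of the values at `m` and `n` -/
lemma corr (C : ℝ) (hC : 0 < C) (hPV : ∀ (q : ℕ) (χ : DirichletCharacter ℂ q), 2 ≤ q → χ ≠ 1 →
    ∀ a b : ℕ, ‖∑ n ∈ Finset.Ioc a b, χ (n : ZMod q)‖ ≤ C * √(q : ℝ) * Real.log q)
    (r Z m n N : ℕ) (hr : r < 8) (hm : m ≠ 0) (hn : n ≠ 0) (hmN : m ≤ N) (hnN : n ≤ N) :
    |∑ D ∈ (Ioc 0 Z).filter (fun D => D % 8 = r), ((chi D m : ℤ) : ℝ) * ((chi D n : ℤ) : ℝ)| ≤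
      2 * C * Real.log N * (√(m : ℝ) * √(n : ℝ)) +
        if IsSquare (od m * od n) then (Z : ℝ) else 0 := by
  have hN1 : (1 : ℝ) ≤ N := by exact_mod_cast (by omega : 1 ≤ N)
  have hl : 0 ≤ Real.log N := Real.log_nonneg hN1
  set c : ℝ := ((chi2 (r : ℤ) : ℤ) : ℝ) ^ (padicValNat 2 m) *
    ((chi2 (r : ℤ) : ℤ) : ℝ) ^ (padicValNat 2 n) with hc
  have hc1 : |c| ≤ 1 := by
    rw [hc, abs_mul, abs_pow, abs_pow]
    exact mul_le_one₀ (pow_le_one₀ (abs_nonneg _) (abs_chi2 _)) (by positivity)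
      (pow_le_one₀ (abs_nonneg _) (abs_chi2 _))
  have he : ∑ D ∈ (Ioc 0 Z).filter (fun D => D % 8 = r),
      ((chi D m : ℤ) : ℝ) * ((chi D n : ℤ) : ℝ) =
      c * ∑ D ∈ (Ioc 0 Z).filter (fun D => D % 8 = r),
        ((jacobiSym (D : ℤ) (od m * od n) : ℤ) : ℝ) := by
    rw [mul_sum]
    refine sum_congr rfl fun D hD => ?_
    rw [mem_filter] at hD
    rw [jacobiSym.mul_right' _ (od_ne hm) (od_ne hn)]
    have e1 : chi D m = chi2 D ^ (padicValNat 2 m) * jacobiSym D (od m) := rfl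
    have e2 : chi D n = chi2 D ^ (padicValNat 2 n) * jacobiSym D (od n) := rfl
    rw [e1, e2, chi2_mod hD.2, hc]
    push_cast
    ring
  rw [he, abs_mul]
  have hsum0 := abs_nonneg (∑ D ∈ (Ioc 0 Z).filter (fun D => D % 8 = r),
        ((jacobiSym (D : ℤ) (od m * od n) : ℤ) : ℝ))
  refine (mul_le_of_le_one_left hsum0 hc1).trans ?_
  split_ifs with hsq
  · have h1 : |∑ D ∈ (Ioc 0 Z).filter (fun D => D % 8 = r),
        ((jacobiSym (D : ℤ) (od m * od n) : ℤ) : ℝ)| ≤ Z := by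
      refine (abs_sum_le_sum_abs _ _).trans ?_
      calc _ ≤ ∑ D ∈ (Ioc 0 Z).filter (fun D => D % 8 = r), (1 : ℝ) :=
            sum_le_sum fun D _ => LM2h.abs_jac _ _
        _ = (((Ioc 0 Z).filter (fun D => D % 8 = r)).card : ℝ) := by simp
        _ ≤ ((Ioc 0 Z).card : ℝ) := by exact_mod_cast card_filter_le _ _
        _ = Z := by simp
    have h2 : 0 ≤ 2 * C * Real.log N * (√(m : ℝ) * √(n : ℝ)) := by positivity
    linarith
  · rw [add_zero]
    have hodd : Odd (od m * od n) := (od_odd hm).mul (od_odd hn)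
    have hk0 : 1 ≤ od m * od n := Nat.one_le_iff_ne_zero.2 (mul_ne_zero (od_ne hm) (od_ne hn))
    have h1 := LM2h.ap_sum C hPV (od m * od n) hodd hsq 8 r hr
      (by
        have : Nat.Coprime 2 (od m * od n) := Nat.coprime_two_left.2 hodd
        exact Nat.Coprime.pow_left 3 this) 0 Z (Nat.zero_le _)
    refine h1.trans ?_
    have h2 : √((od m * od n : ℕ) : ℝ) ≤ √(m : ℝ) * √(n : ℝ) := by
      rw [← Real.sqrt_mul (Nat.cast_nonneg m)]
      apply Real.sqrt_le_sqrt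
      exact_mod_cast Nat.mul_le_mul (od_le m) (od_le n)
    have h3 : Real.log ((od m * od n : ℕ) : ℝ) ≤ 2 * Real.log N := by
      have : Real.log ((od m * od n : ℕ) : ℝ) ≤ Real.log ((N : ℝ) ^ 2) := by
        apply Real.log_le_log (by exact_mod_cast hk0)
        rw [pow_two]
        exact_mod_cast Nat.mul_le_mul ((od_le m).trans hmN) ((od_le n).trans hnN)
      rw [Real.log_pow] at this
      exact_mod_cast this
    have h4 : 0 ≤ Real.log ((od m * od n : ℕ) : ℝ) := Real.log_nonneg (by exact_mod_cast hk0)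
    calc C * √((od m * od n : ℕ) : ℝ) * Real.log ((od m * od n : ℕ) : ℝ) ≤
        C * (√(m : ℝ) * √(n : ℝ)) * (2 * Real.log N) :=
          mul_le_mul (mul_le_mul_of_nonneg_left h2 hC.le) h3 h4 (by positivity)
      _ = _ := by ring

/-- the second moment over a class modulo `8` -/
lemma moment_class (C : ℝ) (hC : 0 < C)
    (hPV : ∀ (q : ℕ) (χ : DirichletCharacter ℂ q), 2 ≤ q → χ ≠ 1 →
    ∀ a b : ℕ, ‖∑ n ∈ Finset.Ioc a b, χ (n : ZMod q)‖ ≤ C * √(q : ℝ) * Real.log q)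
    (r Z y N : ℕ) (hr : r < 8) (hy : 1 ≤ y) (hN : 1 ≤ N) :
    ∑ D ∈ (Ioc 0 Z).filter (fun D => D % 8 = r),
      (∑ n ∈ Ioc y N, ((chi D n : ℤ) : ℝ) / n) ^ 2 ≤
      2 * C * Real.log N * (N * (1 + Real.log N)) +
        Z * ((1 + Real.log N) * ((Nat.log 2 N + 1) * (1 + Real.log N) / √(y : ℝ))) := by
  have hN1 : (1 : ℝ) ≤ N := by exact_mod_cast hN
  have hl : 0 ≤ Real.log N := Real.log_nonneg hN1
  have he : ∑ D ∈ (Ioc 0 Z).filter (fun D => D % 8 = r),
      (∑ n ∈ Ioc y N, ((chi D n : ℤ) : ℝ) / n) ^ 2 =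
      ∑ m ∈ Ioc y N, ∑ n ∈ Ioc y N, (1 : ℝ) / m * (1 / n) *
        ∑ D ∈ (Ioc 0 Z).filter (fun D => D % 8 = r),
          ((chi D m : ℤ) : ℝ) * ((chi D n : ℤ) : ℝ) := by
    have e0 : ∀ D : ℕ, (∑ n ∈ Ioc y N, ((chi D n : ℤ) : ℝ) / n) ^ 2 =
        ∑ m ∈ Ioc y N, ∑ n ∈ Ioc y N, (((chi D m : ℤ) : ℝ) / m) * (((chi D n : ℤ) : ℝ) / n) := by
      intro D
      rw [pow_two, sum_mul_sum]
    rw [sum_congr rfl fun D _ => e0 D, sum_comm]
    refine sum_congr rfl fun m _ => ?_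
    rw [sum_comm]
    refine sum_congr rfl fun n _ => ?_
    rw [mul_sum]
    refine sum_congr rfl fun D _ => ?_
    ring
  rw [he]
  have hb : ∀ m ∈ Ioc y N, ∀ n ∈ Ioc y N, (1 : ℝ) / m * (1 / n) *
        ∑ D ∈ (Ioc 0 Z).filter (fun D => D % 8 = r),
          ((chi D m : ℤ) : ℝ) * ((chi D n : ℤ) : ℝ) ≤
      2 * C * Real.log N * ((1 / √(m : ℝ)) * (1 / √(n : ℝ))) +
        Z * ((1 / m) * if IsSquare (od m * od n) then (1 : ℝ) / n else 0) := by
    intro m hm n hn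
    rw [mem_Ioc] at hm hn
    have hm0 : (0 : ℝ) < m := by exact_mod_cast (by omega : 0 < m)
    have hn0 : (0 : ℝ) < n := by exact_mod_cast (by omega : 0 < n)
    have h1 := corr C hC hPV r Z m n N hr (by omega) (by omega) hm.2 hn.2
    have h2 := (le_abs_self _).trans h1
    have h3 : (0 : ℝ) ≤ 1 / m * (1 / n) := by positivity
    refine (mul_le_mul_of_nonneg_left h2 h3).trans (le_of_eq ?_)
    have hsm : √(m : ℝ) * √(m : ℝ) = m := Real.mul_self_sqrt hm0.le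
    have hsn : √(n : ℝ) * √(n : ℝ) = n := Real.mul_self_sqrt hn0.le
    have hsm0 : √(m : ℝ) ≠ 0 := (Real.sqrt_pos.2 hm0).ne'
    have hsn0 : √(n : ℝ) ≠ 0 := (Real.sqrt_pos.2 hn0).ne'
    have e1 : (1 : ℝ) / m * √(m : ℝ) = 1 / √(m : ℝ) := by
      nth_rewrite 1 [← hsm]
      field_simp
    have e2 : (1 : ℝ) / n * √(n : ℝ) = 1 / √(n : ℝ) := by
      nth_rewrite 1 [← hsn]
      field_simp
    rw [mul_add]
    congr 1
    · rw [← e1, ← e2]
      ring
    · split_ifs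
      · ring
      · ring
  refine (sum_le_sum fun m hm => sum_le_sum fun n hn => hb m hm n hn).trans ?_
  simp only [sum_add_distrib]
  apply add_le_add
  · have e1 : ∑ m ∈ Ioc y N, ∑ n ∈ Ioc y N,
        2 * C * Real.log N * ((1 / √(m : ℝ)) * (1 / √(n : ℝ))) =
        2 * C * Real.log N * (∑ n ∈ Ioc y N, (1 : ℝ) / √(n : ℝ)) ^ 2 := by
      rw [pow_two, sum_mul_sum, mul_sum]
      refine sum_congr rfl fun m _ => ?_
      rw [mul_sum]
    rw [e1]
    exact mul_le_mul_of_nonneg_left (sq_sqrt_sum y N hN) (by positivity)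
  · have e1 : ∀ m ∈ Ioc y N, ∑ n ∈ Ioc y N,
        (Z : ℝ) * ((1 / m) * if IsSquare (od m * od n) then (1 : ℝ) / n else 0) ≤
        Z * ((1 / m) * ((Nat.log 2 N + 1) * (1 + Real.log N) / √(y : ℝ))) := by
      intro m hm
      rw [mem_Ioc] at hm
      rw [← mul_sum, ← mul_sum]
      apply mul_le_mul_of_nonneg_left _ (Nat.cast_nonneg Z)
      apply mul_le_mul_of_nonneg_left _ (by positivity)
      rw [← sum_filter]
      exact sq_sum (by omega) y N hy
    refine (sum_le_sum e1).trans ?_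
    rw [← mul_sum, ← sum_mul]
    apply mul_le_mul_of_nonneg_left _ (Nat.cast_nonneg Z)
    apply mul_le_mul_of_nonneg_right _ (by positivity)
    calc ∑ m ∈ Ioc y N, (1 : ℝ) / m ≤ ∑ n ∈ Icc 1 N, (1 : ℝ) / n := by
          apply sum_le_sum_of_subset_of_nonneg
          · intro n hn
            rw [mem_Ioc] at hn
            rw [mem_Icc]
            omega
          · intro n _ _
            positivity
      _ ≤ _ := har_le N

/-- the second moment over all `D ≤ Z` -/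
theorem moment : ∃ C : ℝ, 0 < C ∧ ∀ Z y N : ℕ, 1 ≤ y → 1 ≤ N →
    ∑ D ∈ Ioc 0 Z, (∑ n ∈ Ioc y N, ((chi D n : ℤ) : ℝ) / n) ^ 2 ≤
      C * (1 + Real.log N) ^ 2 * N +
        C * Z * ((Nat.log 2 N + 1) * (1 + Real.log N) ^ 2 / √(y : ℝ)) := by
  obtain ⟨C, hC, hPV⟩ := T_PV
  refine ⟨16 * C + 8, by positivity, fun Z y N hy hN => ?_⟩
  have hN1 : (1 : ℝ) ≤ N := by exact_mod_cast hN
  have hl : 0 ≤ Real.log N := Real.log_nonneg hN1
  have hmap : ∀ D ∈ Ioc 0 Z, D % 8 ∈ range 8 := fun D _ => by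
    rw [mem_range]
    omega
  rw [← sum_fiberwise_of_maps_to hmap]
  calc ∑ r ∈ range 8, ∑ D ∈ Ioc 0 Z with D % 8 = r,
        (∑ n ∈ Ioc y N, ((chi D n : ℤ) : ℝ) / n) ^ 2 ≤
      ∑ r ∈ range 8, (2 * C * Real.log N * (N * (1 + Real.log N)) +
        Z * ((1 + Real.log N) * ((Nat.log 2 N + 1) * (1 + Real.log N) / √(y : ℝ)))) :=
        sum_le_sum fun r hr => moment_class C hC hPV r Z y N (mem_range.1 hr) hy hN
    _ = 16 * C * (Real.log N * (1 + Real.log N) * N) +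
        8 * (Z * ((Nat.log 2 N + 1) * (1 + Real.log N) ^ 2 / √(y : ℝ))) := by
        rw [sum_const, card_range, nsmul_eq_mul]
        push_cast
        ring
    _ ≤ 16 * C * ((1 + Real.log N) ^ 2 * N) +
        8 * (Z * ((Nat.log 2 N + 1) * (1 + Real.log N) ^ 2 / √(y : ℝ))) := by
        have : Real.log N * (1 + Real.log N) * N ≤ (1 + Real.log N) ^ 2 * N := by
          apply mul_le_mul_of_nonneg_right _ (by positivity)
          nlinarith
        have := mul_le_mul_of_nonneg_left this (by positivity : 0 ≤ 16 * C)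
        linarith
    _ ≤ _ := by
        have p1 : 0 ≤ (1 + Real.log N) ^ 2 * N := by positivity
        have p2 : 0 ≤ (Z : ℝ) * ((Nat.log 2 N + 1) * (1 + Real.log N) ^ 2 / √(y : ℝ)) := by
          positivity
        nlinarith

end Pool.Agent.V5helper98.CN
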